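import Pool.Agent.E8helper11.GS.Stm

/-!
# Project GS, piece `S_REG`
-/

set_option autoImplicit false

open Filter Topology
open scoped Classical

namespace Pool.Agent.E8helper5.GS

open N0ef6d136 Pool.Agent.E8helper11.GS

theorem two_pow_le_prod (u : ℕ → ℕ) (h2 : ∀ i, 2 ≤ u i) (k : ℕ) :
    2 ^ k ≤ ∏ i ∈ Finset.range k, u i := by
  calc 2 ^ k = ∏ _i ∈ Finset.range k, 2 := by simp
    _ ≤ _ := Finset.prod_le_prod' fun i _ => h2 i

theorem bdd (u : ℕ → ℕ) (h2 : ∀ i, 2 ≤ u i) (x : ℕ) :
    BddAbove {k | ∏ i ∈ Finset.range k, u i ≤ x} := by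
  refine ⟨x, fun k hk => ?_⟩
  have h1 := two_pow_le_prod u h2 k
  have h3 : k < 2 ^ k := Nat.lt_two_pow_self
  have h4 : ∏ i ∈ Finset.range k, u i ≤ x := hk
  omega

theorem t_mem (u : ℕ → ℕ) (h2 : ∀ i, 2 ≤ u i) (x : ℕ) (hx : 1 ≤ x) :
    ∏ i ∈ Finset.range (t u x), u i ≤ x := by
  have h := Nat.sSup_mem (s := {k | ∏ i ∈ Finset.range k, u i ≤ x}) ⟨0, by simpa using hx⟩
    (bdd u h2 x)
  exact h

theorem t_succ (u : ℕ → ℕ) (h2 : ∀ i, 2 ≤ u i) (x : ℕ) :
    x < ∏ i ∈ Finset.range (t u x + 1), u i := by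
  by_contra hcon
  have h1 : t u x + 1 ∈ {k | ∏ i ∈ Finset.range k, u i ≤ x} := not_lt.1 hcon
  have h3 : t u x + 1 ≤ t u x := le_csSup (bdd u h2 x) h1
  omega

theorem t_REG : S_REG := by
  intro u hu h2 x y δ hδ hx hxy
  set T := t u x with hT
  set T' := t u y with hT'
  rcases Nat.eq_zero_or_pos y with hy | hy
  · have h0 : T' = 0 := by
      rw [hT', hy]
      unfold t
      have : {k | ∏ i ∈ Finset.range k, u i ≤ 0} = ∅ := by
        ext k
        simp only [Set.mem_ofPred_eq, Set.mem_empty_iff_false, iff_false, not_le]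
        have := two_pow_le_prod u h2 k
        have h3 : 0 < 2 ^ k := by positivity
        omega
      rw [this]
      simp
    rw [h0]
    push_cast
    positivity
  rcases Nat.lt_or_ge (T + 1) T' with hlt | hle
  · set f : ℕ → ℝ := fun i => Real.log (u i) with hf
    have hpos : ∀ i, (0 : ℝ) < u i := fun i => by
      have := h2 i
      exact_mod_cast (by omega : 0 < u i)
    have hmono : ∀ i j, i ≤ j → f i ≤ f j := fun i j hij =>
      Real.log_le_log (hpos i) (by exact_mod_cast hu.monotone hij)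
    have hlogprod : ∀ k, Real.log ((∏ i ∈ Finset.range k, u i : ℕ) : ℝ) =
        ∑ i ∈ Finset.range k, f i := by
      intro k
      push_cast
      rw [Real.log_prod]
      intro i _
      exact (hpos i).ne'
    have hS : Real.log x < ∑ i ∈ Finset.range (T + 1), f i := by
      rw [← hlogprod]
      apply Real.log_lt_log (by exact_mod_cast hx)
      exact_mod_cast t_succ u h2 x
    have hS' : ∑ i ∈ Finset.range T', f i ≤ Real.log y := by
      rw [← hlogprod]
      apply Real.log_le_log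
      · have h3 := two_pow_le_prod u h2 T'
        have h4 : 0 < 2 ^ T' := by positivity
        exact_mod_cast (by omega : 0 < ∏ i ∈ Finset.range T', u i)
      · exact_mod_cast t_mem u h2 y hy
    have hlx : 0 ≤ Real.log x := Real.log_nonneg (by exact_mod_cast hx)
    set S := ∑ i ∈ Finset.range (T + 1), f i with hSdef
    have hSle : S ≤ ((T : ℝ) + 1) * f (T + 1) := by
      calc S ≤ ∑ _i ∈ Finset.range (T + 1), f (T + 1) :=
            Finset.sum_le_sum fun i hi => hmono _ _ (Finset.mem_range.1 hi).le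
        _ = ((T : ℝ) + 1) * f (T + 1) := by
            rw [Finset.sum_const, Finset.card_range, nsmul_eq_mul]; push_cast; ring
    have hsplit : S + ((T' : ℝ) - (T + 1)) * f (T + 1) ≤ ∑ i ∈ Finset.range T', f i := by
      rw [← Finset.sum_range_add_sum_Ico f hlt.le]
      refine add_le_add le_rfl ?_
      have h3 : ∑ _i ∈ Finset.Ico (T + 1) T', f (T + 1) ≤ ∑ i ∈ Finset.Ico (T + 1) T', f i :=
        Finset.sum_le_sum fun i hi => hmono _ _ (Finset.mem_Ico.1 hi).1
      rw [Finset.sum_const, Nat.card_Ico, nsmul_eq_mul, Nat.cast_sub hlt.le] at h3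
      push_cast at h3
      exact h3
    have hN : (0 : ℝ) < (T : ℝ) + 1 := by positivity
    have hd : (0 : ℝ) < (T' : ℝ) - (T + 1) := by
      have : ((T + 1 : ℕ) : ℝ) < T' := by exact_mod_cast hlt
      push_cast at this
      linarith
    have hSpos : 0 < S := lt_of_le_of_lt hlx hS
    have h5 : (T' : ℝ) * S ≤ ((T : ℝ) + 1) * ∑ i ∈ Finset.range T', f i := by
      have h6 := mul_le_mul_of_nonneg_left hsplit hN.le
      have h7 := mul_le_mul_of_nonneg_left hSle hd.le
      nlinarith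
    have h8 : ((T : ℝ) + 1) * ∑ i ∈ Finset.range T', f i ≤ ((T : ℝ) + 1) * ((1 + δ) * S) := by
      apply mul_le_mul_of_nonneg_left _ hN.le
      calc _ ≤ Real.log y := hS'
        _ ≤ (1 + δ) * Real.log x := hxy
        _ ≤ (1 + δ) * S := mul_le_mul_of_nonneg_left hS.le (by linarith)
    have h9 : (T' : ℝ) * S ≤ ((1 + δ) * ((T : ℝ) + 1)) * S := by
      calc _ ≤ _ := h5.trans h8
        _ = _ := by ring
    exact le_of_mul_le_mul_right h9 hSpos
  · have h3 : (T' : ℝ) ≤ (T : ℝ) + 1 := by exact_mod_cast hle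
    have h4 : (0 : ℝ) ≤ (T : ℝ) + 1 := by positivity
    nlinarith

end Pool.Agent.E8helper5.GS
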